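import Pool.Agent.U562.WV.Fin
import Pool.Agent.U562.WV.Cov

set_option autoImplicit false

/-!
# Local smoothing in `ℝ³` for all `p ≥ 3`, all `σ < 1/p`, for data singular along arbitrary
two-dimensional sets

For all Schwartz data `u₀, u₁` on `ℝ³`, all `p ≥ p_3 = 3`, all `σ < 1/p` and all sets `K₀, K₁` whose
`r`-neighbourhoods have measure at most `A ρ² r` in the balls of radius `ρ`,

`∫_0^2 ‖u(t)‖_p^p dt ≤ C ∑_j (‖f_j‖_p^p + ‖dist(·, K_j) ∇ f_j‖_p^p)`,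

`f₀ = (I - Δ)^{(s_p - σ)/2} u₀`, `f₁ = (I - Δ)^{(s_p - 1 - σ)/2} u₁`, with a constant `C` which
depends on `A`, `p`, `σ` only: the estimate of the question in its full range, with the second term
in the norms. The sets are arbitrary and may depend on the data.

Proof. (1) An exact energy identity on light cones: for `g` zero near the origin, Kirchhoff's formula
at the point `(t, tθ)` is, after the inversion `y = x/|x|²`, the integral of the normal derivative of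
`|x|⁻² g(x/|x|²)` over the plane `⟨θ, x⟩ = 1/(2t)`; by the Fourier slice theorem and Plancherel's
theorem `∫_{S²} ∫_0^∞ |cos(t√-Δ) g (tθ)|² dt dθ` is at most `∫ |g(y)|² |y|⁻² dy`. (2) With Kirchhoff's
formula for one factor of `|cos(t√-Δ) g|^p` and (1) for two of them: if `|g|, δ|∇g| ≤ F`, then
`∫_0^T ‖cos(t√-Δ) g‖_p^p dt ≤ (1 + T/δ)^{p-2} ∫ F(y)^{p-2} ∫_{|z-y| < 2T+2} |g(z)|² |z-y|⁻² dz dy`
for all `p ≥ 3`. (3) The pieces of `f` at the scale `δ` are at most `min(1, δ/dist(·, K))` times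
functions with the norms of the theorem, and the Riesz potential of this weight is `O(δ^a)` for every
`a < 1`. (4) The dyadic (here: continuous) sum over the scales.

Project WV, led by helper562 (statements, `Cone`, assembly); the jobs: KIR helper480, KER helper685,
SLI helper147, POL helper2, KEY0 helper186, KEY helper473, MAIN helper770, SCH helper260, PIE and LOW
helper88, PCS helper128, COS helper776, SIN helper688.
-/

open MeasureTheory Set Metric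
open scoped ENNReal FourierTransform RealInnerProductSpace SchwartzMap

namespace Pool.Agent.Results.MP_ee74d2_an.LightConeEnergies

/-- `ℝ³` -/
abbrev E3 : Type := EuclideanSpace ℝ (Fin 3)

/-- The inverse Fourier transform `∫ exp(2πi x·ξ) F(ξ) dξ`. -/
noncomputable def inv (F : E3 → ℂ) (x : E3) : ℂ :=
  ∫ ξ : E3, Complex.exp (((2 * Real.pi * ⟪x, ξ⟫ : ℝ) : ℂ) * Complex.I) * F ξ

/-- The solution of the wave equation with `u(0) = u₀`, `∂ₜu(0) = u₁`: the inverse Fourier transform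
of `cos(2πt|ξ|) u₀^(ξ) + sin(2πt|ξ|)/(2π|ξ|) u₁^(ξ)`. -/
noncomputable def solution (u₀ u₁ : E3 → ℂ) (t : ℝ) (x : E3) : ℂ :=
  inv (fun ξ => ((Real.cos (2 * Real.pi * t * ‖ξ‖) : ℝ) : ℂ) * 𝓕 u₀ ξ +
    ((Real.sin (2 * Real.pi * t * ‖ξ‖) / (2 * Real.pi * ‖ξ‖) : ℝ) : ℂ) * 𝓕 u₁ ξ) x

/-- The Bessel potential `(I - Δ)^{s/2} u`. -/
noncomputable def bessel (s : ℝ) (u : E3 → ℂ) (x : E3) : ℂ :=
  inv (fun ξ => (((1 + 4 * Real.pi ^ 2 * ‖ξ‖ ^ 2) ^ (s / 2) : ℝ) : ℂ) * 𝓕 u ξ) x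

/-- The `r`-neighbourhood of `K` has measure at most `A ρ² r` in every ball of radius `ρ`. -/
def Thin (A : ℝ) (K : Set E3) : Prop :=
  ∀ (b : E3) (ρ r : ℝ), 0 < ρ → 0 < r →
    volume (ball b ρ ∩ {x | infDist x K < r}) ≤ ENNReal.ofReal (A * ρ ^ 2 * r)

/-- `‖f‖_p^p + ‖dist(·, K) ∇f‖_p^p` -/
noncomputable def norm (K : Set E3) (p : ℝ) (f : E3 → ℂ) : ℝ≥0∞ :=
  (∫⁻ y, ‖f y‖ₑ ^ p) + ∫⁻ y, (ENNReal.ofReal (infDist y K) * ‖fderiv ℝ f y‖ₑ) ^ p

/-- (1) The estimate of Q1 in `ℝ³` for all `p ≥ 3`, `σ < 1/p`, `s_p = 1 - 2/p`, with the norms of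
`L^p_{s_p - σ}`, `L^p_{s_p - 1 - σ}` supplemented by `‖dist(·, K) ∇ (I - Δ)^{·/2} u_j‖_p`, uniformly
over all thin sets. (2) Sets of Assouad dimension at most two (with a bound at the exponent two) are
thin. -/
theorem result :
    (∀ A p σ : ℝ, 0 ≤ A → 3 ≤ p → σ < 1 / p → ∃ C : ℝ, 0 < C ∧
      ∀ K₀ K₁ : Set E3, Thin A K₀ → Thin A K₁ → ∀ u₀ u₁ : 𝓢(E3, ℂ),
        ∫⁻ t in Icc (0 : ℝ) 2, (∫⁻ x, ‖solution u₀ u₁ t x‖ₑ ^ p) ≤
          ENNReal.ofReal C * (norm K₀ p (bessel (1 - 2 / p - σ) u₀) +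
            norm K₁ p (bessel (1 - 2 / p - 1 - σ) u₁))) ∧
    ∀ (N : ℝ) (K : Set E3), 0 ≤ N → K.Nonempty →
      (∀ (b : E3) (ρ r : ℝ), 0 < r → r ≤ ρ → ∃ F : Finset E3,
        (F.card : ℝ) ≤ N * (ρ / r) ^ 2 ∧ K ∩ ball b ρ ⊆ ⋃ z ∈ F, ball z r) →
      Thin (140 * N + 5) K :=
  ⟨fun _ _ _ hA hp hσ => Pool.Agent.U562.WV.wv_bessel hA hp hσ,
    fun _ _ hN hK h => Pool.Agent.U562.WV.thin_of_cover hN hK h⟩

end Pool.Agent.Results.MP_ee74d2_an.LightConeEnergies
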