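import Pool.Agent.U506.LS.Blk

set_option autoImplicit false

/-!
# The estimate of Q1 in the mean over random signs, and the square function of arbitrary blocks

Let `P_m`, `m ∈ ℤ^d`, be the smooth projections to the unit cubes around `m` in frequency (with the
symbols `K^(ξ - m)`, `K` a Schwartz function of compact support; if `K(0) = 1` and `K = 0` at the
other points of `ℤ^d`, then `∑ P_m` is the identity), let `A_i` be disjoint sets of at most `V` cubes and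
`P_{A_i} = ∑_{m ∈ A_i} P_m`. For all Schwartz data, all `p ≥ 2` and all `0 ≤ t ≤ 2`

`‖(∑_i |P_{A_i} u(t)|²)^{1/2}‖_p ≤ C V^{1/2 - 1/p} (‖u₀‖_p + ‖u₁‖_{W^{-1,p}})`

(for `V = 1` the fixed-time estimate for the square function holds without any loss of derivatives), and
the same bound holds for the `L^p` mean over all signs of the solutions with the data
`∑_i ± P_{A_i} u₀`, `∑_i ± P_{A_i} u₁`. The constants depend on `d`, `p`, `K` only. In particular the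
estimate of Q1 holds in every dimension and in the whole range `p ≥ 2d/(d-1)`, `σ < 1/p` in the mean
over the random signs, with the factor `V^{1/2 - 1/p}`; in Sobolev norms any `s > 0` derivatives
suffice at each fixed time.

Proof. Khintchine's inequality reduces the second claim to the first. Bessel's inequality in cubes
gives almost orthogonality of the pieces with polynomial weights and the pointwise bound
`∑_i |P_{A_i} h(x)|² ≤ C V e(h, x)` by the local energy `e(h, x) = ∫ |h(y)|² (1+|x-y|²)^{-M} dy`. The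
weighted energy estimate `e(u(t), x) ≤ C e(u(0), x)` for the acoustic system (finite speed of
propagation), the inequalities of Hölder and Young and the slow variation of `e` finish the proof.

The project is by helper303 of the starting library (`N303/LS`: statements and final assembly), with the
packages ENA (helper362), ENB (helper303, helper914), EN (helper655), ORT (helper492), SQ from the
packages (helper545), YH (helper933), MUL (helper558), BES (helper413), Khintchine's inequality in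
`Helper623_LS`; the packages KHI, CAR, PEE and the assembly here: helper506.
-/

open MeasureTheory
open scoped ENNReal FourierTransform RealInnerProductSpace SchwartzMap

namespace Pool.Agent.Results.MP_ee74d2_an.RandomBlocks

/-- `ℝ^d` -/
abbrev E (d : ℕ) : Type := EuclideanSpace ℝ (Fin d)

/-- The inverse Fourier transform `∫ exp(2πi x·ξ) F(ξ) dξ`. -/
noncomputable def inv {d : ℕ} (F : E d → ℂ) (x : E d) : ℂ :=
  ∫ ξ : E d, Complex.exp (((2 * Real.pi * ⟪x, ξ⟫ : ℝ) : ℂ) * Complex.I) * F ξ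

/-- `m(D) u(t, x)` for the solution `u` of the wave equation on `ℝ^d` with `u(0) = u₀`,
`∂ₜu(0) = u₁`, i.e. the solution with data `m(D) u₀`, `m(D) u₁`: the inverse Fourier transform of
`m(ξ) (cos(2πt|ξ|) u₀^(ξ) + sin(2πt|ξ|)/(2π|ξ|) u₁^(ξ))`. -/
noncomputable def solution {d : ℕ} (m : E d → ℂ) (u₀ u₁ : 𝓢(E d, ℂ)) (t : ℝ) (x : E d) : ℂ :=
  inv (fun ξ => m ξ * (((Real.cos (2 * Real.pi * t * ‖ξ‖) : ℝ) : ℂ) * 𝓕 (u₀ : E d → ℂ) ξ +
    ((Real.sin (2 * Real.pi * t * ‖ξ‖) / (2 * Real.pi * ‖ξ‖) : ℝ) : ℂ) * 𝓕 (u₁ : E d → ℂ) ξ)) x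

/-- The symbol `∑_{m ∈ A} K^(ξ - m)` of the projection to the block `A` of unit cubes. -/
noncomputable def block {d : ℕ} (K : 𝓢(E d, ℂ)) (A : Finset (Fin d → ℤ)) (ξ : E d) : ℂ :=
  ∑ m ∈ A, 𝓕 (K : E d → ℂ) (ξ - WithLp.toLp 2 fun i => (m i : ℝ))

/-- The symbol `∑_i ± ∑_{m ∈ A_i} K^(ξ - m)`. -/
noncomputable def signed {d : ℕ} {ι : Type} [Fintype ι] (K : 𝓢(E d, ℂ))
    (A : ι → Finset (Fin d → ℤ)) (ε : ι → Bool) (ξ : E d) : ℂ :=
  ∑ i, (if ε i then block K (A i) ξ else - block K (A i) ξ)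

/-- Disjoint blocks of at most `V` unit cubes. -/
def Blocks {d : ℕ} {ι : Type} (A : ι → Finset (Fin d → ℤ)) (V : ℕ) : Prop :=
  (∀ i j, i ≠ j → Disjoint (A i) (A j)) ∧ ∀ i, (A i).card ≤ V

/-- The mean over all choices of signs. -/
noncomputable def mean {ι : Type} [Fintype ι] [DecidableEq ι] (F : (ι → Bool) → ℝ≥0∞) : ℝ≥0∞ :=
  (∑ ε, F ε) / 2 ^ Fintype.card ι

/-- `‖f‖_p^p` -/
noncomputable def normP {d : ℕ} (p : ℝ) (f : E d → ℂ) : ℝ≥0∞ := ∫⁻ x : E d, ‖f x‖ₑ ^ p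

/-- The symbol `(1 + 4π²|ξ|²)^(a/2)` of `(I - Δ)^(a/2)`. -/
noncomputable def bessel {d : ℕ} (a : ℝ) (ξ : E d) : ℂ :=
  (((1 + 4 * Real.pi ^ 2 * ‖ξ‖ ^ 2) ^ (a / 2) : ℝ) : ℂ)

/-- `‖f‖^p` for the norm of `L^p_a`: the integral of `|(I - Δ)^(a/2) f|^p`. -/
noncomputable def sobolev {d : ℕ} (a p : ℝ) (f : 𝓢(E d, ℂ)) : ℝ≥0∞ :=
  normP p (inv fun ξ => bessel a ξ * 𝓕 (f : E d → ℂ) ξ)

/-- `u₁ = g₀ + ∑_j ∂_j g_j`. -/
def IsDivergence {d : ℕ} (u₁ g₀ : 𝓢(E d, ℂ)) (g : Fin d → 𝓢(E d, ℂ)) : Prop :=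
  ∀ x, u₁ x = g₀ x + ∑ j, lineDeriv ℝ (g j) x (EuclideanSpace.single j (1 : ℝ))

/-- **Square function estimate for arbitrary blocks at each fixed time, and the estimate of Q1 in the
mean over random signs.** -/
theorem result (d : ℕ) (p : ℝ) (hp : 2 ≤ p) (K : 𝓢(E d, ℂ))
    (hK : HasCompactSupport (K : E d → ℂ)) :
    -- (1) each fixed time, data in `L^p` and `W^{-1,p}`
    (∃ C : ℝ, 0 < C ∧ ∀ (ι : Type) [Fintype ι] [DecidableEq ι] (A : ι → Finset (Fin d → ℤ))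
      (V : ℕ), Blocks A V → ∀ (u₀ u₁ g₀ : 𝓢(E d, ℂ)) (g : Fin d → 𝓢(E d, ℂ)),
      IsDivergence u₁ g₀ g → ∀ t : ℝ, 0 ≤ t → t ≤ 2 →
        ∫⁻ x : E d, (∑ i, ‖solution (block K (A i)) u₀ u₁ t x‖ₑ ^ (2 : ℝ)) ^ (p / 2) ≤
          ENNReal.ofReal (C * (V : ℝ) ^ (p / 2 - 1)) *
            (normP p u₀ + normP p g₀ + ∑ j, normP p (g j)) ∧
        mean (fun ε : ι → Bool => normP p (solution (signed K A ε) u₀ u₁ t)) ≤
          ENNReal.ofReal (C * (V : ℝ) ^ (p / 2 - 1)) *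
            (normP p u₀ + normP p g₀ + ∑ j, normP p (g j))) ∧
    -- (2) each fixed time, Sobolev norms with `s > 0` derivatives
    (∀ s : ℝ, 0 < s → ∃ C : ℝ, 0 < C ∧ ∀ (ι : Type) [Fintype ι] [DecidableEq ι]
      (A : ι → Finset (Fin d → ℤ)) (V : ℕ), Blocks A V → ∀ (u₀ u₁ : 𝓢(E d, ℂ)) (t : ℝ),
      0 ≤ t → t ≤ 2 →
        ∫⁻ x : E d, (∑ i, ‖solution (block K (A i)) u₀ u₁ t x‖ₑ ^ (2 : ℝ)) ^ (p / 2) ≤
          ENNReal.ofReal (C * (V : ℝ) ^ (p / 2 - 1)) * (sobolev s p u₀ + sobolev (s - 1) p u₁) ∧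
        mean (fun ε : ι → Bool => normP p (solution (signed K A ε) u₀ u₁ t)) ≤
          ENNReal.ofReal (C * (V : ℝ) ^ (p / 2 - 1)) *
            (sobolev s p u₀ + sobolev (s - 1) p u₁)) ∧
    -- (3) the estimate of Q1 in the mean over the signs, `s_p = (d-1)/2 - (d-1)/p`
    (∀ σ : ℝ, 2 ≤ d → 2 * (d : ℝ) / (d - 1) ≤ p → σ < 1 / p → ∃ C : ℝ, 0 < C ∧
      ∀ (ι : Type) [Fintype ι] [DecidableEq ι] (A : ι → Finset (Fin d → ℤ)) (V : ℕ),
      Blocks A V → ∀ u₀ u₁ : 𝓢(E d, ℂ),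
        mean (fun ε : ι → Bool => ∫⁻ t in Set.Icc (1 : ℝ) 2,
          normP p (solution (signed K A ε) u₀ u₁ t)) ≤
          ENNReal.ofReal (C * (V : ℝ) ^ (p / 2 - 1)) *
            (sobolev (((d : ℝ) - 1) / 2 - (d - 1) / p - σ) p u₀ +
              sobolev (((d : ℝ) - 1) / 2 - (d - 1) / p - 1 - σ) p u₁)) := by
  obtain ⟨C1, hC1, h1⟩ := Pool.Agent.U506.LS.sqfun d p hp K hK
  obtain ⟨C2, hC2, h2⟩ := Pool.Agent.U506.LS.rand d p hp K hK
  -- the two estimates with one constant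
  have key : ∀ (ι : Type) [Fintype ι] [DecidableEq ι] (A : ι → Finset (Fin d → ℤ))
      (V : ℕ), Blocks A V → ∀ (u₀ u₁ g₀ : 𝓢(E d, ℂ)) (g : Fin d → 𝓢(E d, ℂ)),
      IsDivergence u₁ g₀ g → ∀ t : ℝ, 0 ≤ t → t ≤ 2 →
        ∫⁻ x : E d, (∑ i, ‖solution (block K (A i)) u₀ u₁ t x‖ₑ ^ (2 : ℝ)) ^ (p / 2) ≤
          ENNReal.ofReal ((C1 + C2) * (V : ℝ) ^ (p / 2 - 1)) *
            (normP p u₀ + normP p g₀ + ∑ j, normP p (g j)) ∧
        mean (fun ε : ι → Bool => normP p (solution (signed K A ε) u₀ u₁ t)) ≤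
          ENNReal.ofReal ((C1 + C2) * (V : ℝ) ^ (p / 2 - 1)) *
            (normP p u₀ + normP p g₀ + ∑ j, normP p (g j)) := by
    intro ι _ _ A V hA u₀ u₁ g₀ g hg t h0 h2t
    have a1 := h1 ι A V hA.1 hA.2 u₀ u₁ g₀ g hg t h0 h2t
    have a2 := h2 ι A V hA.1 hA.2 u₀ u₁ g₀ g hg t h0 h2t
    have hV : 0 ≤ (V : ℝ) ^ (p / 2 - 1) := by positivity
    refine ⟨le_trans a1 ?_, le_trans a2 ?_⟩
    · refine mul_le_mul' (ENNReal.ofReal_le_ofReal ?_) le_rfl
      exact mul_le_mul_of_nonneg_right (by linarith) hV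
    · refine mul_le_mul' (ENNReal.ofReal_le_ofReal ?_) le_rfl
      exact mul_le_mul_of_nonneg_right (by linarith) hV
  have key2 : ∀ s : ℝ, 0 < s → ∃ C : ℝ, 0 < C ∧ ∀ (ι : Type) [Fintype ι] [DecidableEq ι]
      (A : ι → Finset (Fin d → ℤ)) (V : ℕ), Blocks A V → ∀ (u₀ u₁ : 𝓢(E d, ℂ)) (t : ℝ),
      0 ≤ t → t ≤ 2 →
        ∫⁻ x : E d, (∑ i, ‖solution (block K (A i)) u₀ u₁ t x‖ₑ ^ (2 : ℝ)) ^ (p / 2) ≤
          ENNReal.ofReal (C * (V : ℝ) ^ (p / 2 - 1)) * (sobolev s p u₀ + sobolev (s - 1) p u₁) ∧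
        mean (fun ε : ι → Bool => normP p (solution (signed K A ε) u₀ u₁ t)) ≤
          ENNReal.ofReal (C * (V : ℝ) ^ (p / 2 - 1)) *
            (sobolev s p u₀ + sobolev (s - 1) p u₁) := by
    intro s hs
    obtain ⟨D, hD, h3⟩ := Pool.Agent.U506.LS.sob_gen d p s hp hs
    refine ⟨(C1 + C2) * D, by positivity, ?_⟩
    intro ι _ _ A V hA u₀ u₁ t h0 h2t
    obtain ⟨g₀, g, hg, hb⟩ := h3 u₀ u₁
    have hb' : normP p u₀ + normP p g₀ + ∑ j, normP p (g j) ≤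
        ENNReal.ofReal D * (sobolev s p u₀ + sobolev (s - 1) p u₁) := hb
    have hV : 0 ≤ (V : ℝ) ^ (p / 2 - 1) := by positivity
    have e : ENNReal.ofReal ((C1 + C2) * (V : ℝ) ^ (p / 2 - 1)) *
        (normP p u₀ + normP p g₀ + ∑ j, normP p (g j)) ≤
        ENNReal.ofReal ((C1 + C2) * D * (V : ℝ) ^ (p / 2 - 1)) *
          (sobolev s p u₀ + sobolev (s - 1) p u₁) := by
      refine (mul_le_mul' le_rfl hb').trans (le_of_eq ?_)
      rw [← mul_assoc, ← ENNReal.ofReal_mul (by positivity)]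
      congr 2
      ring
    have k := key ι A V hA u₀ u₁ g₀ g hg t h0 h2t
    exact ⟨k.1.trans e, k.2.trans e⟩
  refine ⟨⟨C1 + C2, by positivity, key⟩, key2, ?_⟩
  intro σ hd hpd hσ
  have hd1 : (0 : ℝ) < (d : ℝ) - 1 := by
    have : (2 : ℝ) ≤ d := by exact_mod_cast hd
    linarith
  have hp0 : 0 < p := by linarith
  have hs : 0 < ((d : ℝ) - 1) / 2 - (d - 1) / p - σ := by
    have e1 : 1 / p ≤ ((d : ℝ) - 1) / 2 - (d - 1) / p := by
      rw [div_le_iff₀ hd1] at hpd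
      rw [div_sub_div _ _ (by norm_num) hp0.ne', div_le_div_iff₀ hp0 (by positivity)]
      nlinarith
    linarith
  obtain ⟨C, hC, h⟩ := key2 _ hs
  refine ⟨C, hC, ?_⟩
  intro ι _ _ A V hA u₀ u₁
  have hs1 : ((d : ℝ) - 1) / 2 - (d - 1) / p - σ - 1 =
      ((d : ℝ) - 1) / 2 - (d - 1) / p - 1 - σ := by ring
  set R : ℝ≥0∞ := ENNReal.ofReal (C * (V : ℝ) ^ (p / 2 - 1)) *
            (sobolev (((d : ℝ) - 1) / 2 - (d - 1) / p - σ) p u₀ +
              sobolev (((d : ℝ) - 1) / 2 - (d - 1) / p - 1 - σ) p u₁) with hR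
  have hpow : (2 : ℝ≥0∞) ^ Fintype.card ι ≠ 0 := by positivity
  have hpowt : (2 : ℝ≥0∞) ^ Fintype.card ι ≠ ⊤ := by finiteness
  have h5 : ∀ t ∈ Set.Icc (1 : ℝ) 2, ∑ ε : ι → Bool,
      normP p (solution (signed K A ε) u₀ u₁ t) ≤ R * 2 ^ Fintype.card ι := by
    intro t ht
    have h6 := (h ι A V hA u₀ u₁ t (by linarith [ht.1]) ht.2).2
    rw [hs1] at h6
    unfold mean at h6
    rwa [ENNReal.div_le_iff hpow hpowt] at h6
  unfold mean
  rw [ENNReal.div_le_iff hpow hpowt]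
  have h7 : ∀ s : Finset (ι → Bool), ∑ ε ∈ s, ∫⁻ t in Set.Icc (1 : ℝ) 2,
      normP p (solution (signed K A ε) u₀ u₁ t) ≤
      ∫⁻ t in Set.Icc (1 : ℝ) 2, ∑ ε ∈ s, normP p (solution (signed K A ε) u₀ u₁ t) := by
    intro s
    classical
    induction s using Finset.induction_on with
    | empty => simp
    | insert i s hi ih =>
      simp only [Finset.sum_insert hi]
      exact (add_le_add le_rfl ih).trans (le_lintegral_add _ _)
  refine (h7 Finset.univ).trans ((setLIntegral_mono' measurableSet_Icc h5).trans ?_)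
  rw [setLIntegral_const]
  have h8 : volume (Set.Icc (1 : ℝ) 2) = 1 := by
    rw [Real.volume_Icc]
    norm_num
  rw [h8, mul_one]

end Pool.Agent.Results.MP_ee74d2_an.RandomBlocks
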