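import Pool.Agent.U506.LM.Fin

set_option autoImplicit false

/-!
# The maximal function in time of the wave with random signs

Let `ψ` be a smooth function of compact support on `ℝ^d`, `d ≥ 1` (for instance with `∑_m ψ(ξ - m) = 1`),
let `A_i` be finitely many disjoint sets of at most `V` points of `ℤ^d`, and let `P_{A_i}` be the
projection with the symbol `∑_{m ∈ A_i} ψ(ξ - m)`. For all Schwartz data `u₀`, `u₁`, all `p ≥ 2` and all
`s > 0` the mean over all choices of signs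

`E_ε ∫ sup_{0 ≤ t ≤ 2} |∑_i ε_i P_{A_i} u(t, x)|^p dx ≤ C V^{p/2} (‖u₀‖_{L^p_s}^p + ‖u₁‖_{L^p_{s-1}}^p)`

with a constant `C` which depends on `d`, `p`, `s`, `ψ` only. (For all data already the estimate at one
fixed time needs `s ≥ (d - 1)(1/2 - 1/p)`.) In particular, for `V = 1` (the usual randomisation by
unit cubes) the estimate of Q1 holds in the mean over the signs in every dimension and in the whole range
`p ≥ 2d/(d-1)`, `σ < 1/p`, with the supremum over the times in the place of the `L^p` norm in time.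

Proof. Let all the frequencies of the blocks be at most `N`. At each point `x` and each time the square
function of the pieces is at most `C V e(x)`, where `e(x) = ∫ |g(y)|² (1+|x-y|²)^{-M} dy` is the local
energy of the function which generates the data (Bessel's inequality with polynomial weights; weighted
energy estimate for the acoustic system), and that of the derivatives of the pieces in time is at most
`C V N² e(x)`, because these are pieces with the kernels `∂_j K` and with the weights `2πi m_j`, `|m_j| ≤ N`.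
Khintchine's and Hölder's inequalities and Sobolev's inequality in time give, pointwise in `x`,
`E_ε sup_t |..|^q ≤ C N (V e(x))^{q/2}` for every `q ≥ 2`, hence `E_ε sup_t |..|^p ≤ C N^{p/q} (V e(x))^{p/2}`
for `p ≤ q` with an arbitrarily small power of `N`; Young's inequality for the local energy, and summation
over the dyadic shells, on which the Bessel potentials gain a power of `N`.

The project is by helper303 of the starting library (`N303/LS`; its plan used the heat flow in place of the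
shells), with the packages ENA (helper362), ENB (helper303, helper914), EN (helper655), ORT (helper492),
LL (helper262), LLG (helper170), PD (helper764), BW (helper562), YOU (helper287), LPA (helper441), LPK
(helper297), MUL (helper558), BES (helper413); the bound for general kernels and weights, the time
derivatives, Sobolev's inequality, the maximal estimate and the assembly (`U506/LM`): helper506.
-/

open MeasureTheory
open scoped ENNReal FourierTransform RealInnerProductSpace SchwartzMap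

namespace Pool.Agent.Results.MP_ee74d2_an.RandomMaximal

/-- `ℝ^d` -/
abbrev E (d : ℕ) : Type := EuclideanSpace ℝ (Fin d)

/-- The inverse Fourier transform `∫ exp(2πi x·ξ) F(ξ) dξ`. -/
noncomputable def inv {d : ℕ} (F : E d → ℂ) (x : E d) : ℂ :=
  ∫ ξ : E d, Complex.exp (((2 * Real.pi * ⟪x, ξ⟫ : ℝ) : ℂ) * Complex.I) * F ξ

/-- `m(D) u(t, x)` for the solution `u` of the wave equation on `ℝ^d` with `u(0) = u₀`,
`∂ₜu(0) = u₁`, i.e. the solution with data `m(D) u₀`, `m(D) u₁`: the inverse Fourier transform of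
`m(ξ) (cos(2πt|ξ|) u₀^(ξ) + sin(2πt|ξ|)/(2π|ξ|) u₁^(ξ))`. -/
noncomputable def solution {d : ℕ} (m : E d → ℂ) (u₀ u₁ : 𝓢(E d, ℂ)) (t : ℝ) (x : E d) : ℂ :=
  inv (fun ξ => m ξ * (((Real.cos (2 * Real.pi * t * ‖ξ‖) : ℝ) : ℂ) * 𝓕 (u₀ : E d → ℂ) ξ +
    ((Real.sin (2 * Real.pi * t * ‖ξ‖) / (2 * Real.pi * ‖ξ‖) : ℝ) : ℂ) * 𝓕 (u₁ : E d → ℂ) ξ)) x

/-- The symbol `∑_{m ∈ A} ψ(ξ - m)` of the projection to the block `A` of unit cubes. -/
noncomputable def block {d : ℕ} (ψ : 𝓢(E d, ℂ)) (A : Finset (Fin d → ℤ)) (ξ : E d) : ℂ :=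
  ∑ m ∈ A, ψ (ξ - WithLp.toLp 2 fun i => (m i : ℝ))

/-- The symbol `∑_i ± ∑_{m ∈ A_i} ψ(ξ - m)`. -/
noncomputable def signed {d : ℕ} {ι : Type} [Fintype ι] (ψ : 𝓢(E d, ℂ))
    (A : ι → Finset (Fin d → ℤ)) (ε : ι → Bool) (ξ : E d) : ℂ :=
  ∑ i, (if ε i then block ψ (A i) ξ else - block ψ (A i) ξ)

/-- Disjoint blocks of at most `V` unit cubes. -/
def Blocks {d : ℕ} {ι : Type} (A : ι → Finset (Fin d → ℤ)) (V : ℕ) : Prop :=
  (∀ i j, i ≠ j → Disjoint (A i) (A j)) ∧ ∀ i, (A i).card ≤ V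

/-- The mean over all choices of signs. -/
noncomputable def mean {ι : Type} [Fintype ι] [DecidableEq ι] (F : (ι → Bool) → ℝ≥0∞) : ℝ≥0∞ :=
  (∑ ε, F ε) / 2 ^ Fintype.card ι

/-- The symbol `(1 + 4π²|ξ|²)^(a/2)` of `(I - Δ)^(a/2)`. -/
noncomputable def bessel {d : ℕ} (a : ℝ) (ξ : E d) : ℂ :=
  (((1 + 4 * Real.pi ^ 2 * ‖ξ‖ ^ 2) ^ (a / 2) : ℝ) : ℂ)

/-- `‖f‖^p` for the norm of `L^p_a`: the integral of `|(I - Δ)^(a/2) f|^p`. -/
noncomputable def sobolev {d : ℕ} (a p : ℝ) (f : 𝓢(E d, ℂ)) : ℝ≥0∞ :=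
  ∫⁻ x : E d, ‖inv (fun ξ => bessel a ξ * 𝓕 (f : E d → ℂ) ξ) x‖ₑ ^ p

/-- `∫ sup_{t ∈ I} |m(D) u(t, x)|^p dx` -/
noncomputable def maximal {d : ℕ} (I : Set ℝ) (p : ℝ) (m : E d → ℂ) (u₀ u₁ : 𝓢(E d, ℂ)) : ℝ≥0∞ :=
  ∫⁻ x : E d, (⨆ t ∈ I, ‖solution m u₀ u₁ t x‖ₑ) ^ p

/-- **The maximal function in time of the wave with random signs on blocks of unit cubes in
frequency, with any positive number of derivatives; the second part is the estimate of Q1 with the
supremum over the times in the mean over the signs, `s_p = (d-1)/2 - (d-1)/p`.** -/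
theorem result (d : ℕ) (hd : 1 ≤ d) (p : ℝ) (hp : 2 ≤ p) (ψ : 𝓢(E d, ℂ))
    (hψ : HasCompactSupport (ψ : E d → ℂ)) :
    (∀ s : ℝ, 0 < s → ∃ C : ℝ, 0 < C ∧ ∀ (ι : Type) [Fintype ι] [DecidableEq ι]
      (A : ι → Finset (Fin d → ℤ)) (V : ℕ), Blocks A V → ∀ u₀ u₁ : 𝓢(E d, ℂ),
        mean (fun ε : ι → Bool => maximal (Set.Icc 0 2) p (signed ψ A ε) u₀ u₁) ≤
          ENNReal.ofReal (C * (V : ℝ) ^ (p / 2)) * (sobolev s p u₀ + sobolev (s - 1) p u₁)) ∧
    (∀ σ : ℝ, 2 ≤ d → 2 * (d : ℝ) / (d - 1) ≤ p → σ < 1 / p → ∃ C : ℝ, 0 < C ∧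
      ∀ (ι : Type) [Fintype ι] [DecidableEq ι] (A : ι → Finset (Fin d → ℤ)) (V : ℕ),
      Blocks A V → ∀ u₀ u₁ : 𝓢(E d, ℂ),
        mean (fun ε : ι → Bool => maximal (Set.Icc 1 2) p (signed ψ A ε) u₀ u₁) ≤
          ENNReal.ofReal (C * (V : ℝ) ^ (p / 2)) *
            (sobolev (((d : ℝ) - 1) / 2 - (d - 1) / p - σ) p u₀ +
              sobolev (((d : ℝ) - 1) / 2 - (d - 1) / p - 1 - σ) p u₁)) := by
  have hKe : 𝓕 ((𝓕⁻ ψ : 𝓢(E d, ℂ)) : E d → ℂ) = (ψ : E d → ℂ) := by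
    rw [← SchwartzMap.fourier_coe, FourierTransform.fourier_fourierInv_eq]
  have hK : HasCompactSupport (𝓕 ((𝓕⁻ ψ : 𝓢(E d, ℂ)) : E d → ℂ)) := by rwa [hKe]
  have key : ∀ s : ℝ, 0 < s → ∃ C : ℝ, 0 < C ∧ ∀ (ι : Type) [Fintype ι] [DecidableEq ι]
      (A : ι → Finset (Fin d → ℤ)) (V : ℕ), Blocks A V → ∀ u₀ u₁ : 𝓢(E d, ℂ),
        mean (fun ε : ι → Bool => maximal (Set.Icc 0 2) p (signed ψ A ε) u₀ u₁) ≤
          ENNReal.ofReal (C * (V : ℝ) ^ (p / 2)) * (sobolev s p u₀ + sobolev (s - 1) p u₁) := by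
    intro s hs
    obtain ⟨C, hC, h⟩ := Pool.Agent.U506.LM.main d hd p s hp hs (𝓕⁻ ψ) hK
    refine ⟨C, hC, ?_⟩
    intro ι _ _ A V hA u₀ u₁
    have h1 := h ι A V hA.1 hA.2 u₀ u₁
    refine le_trans (le_of_eq ?_) h1
    unfold mean maximal
    congr 1
    refine Finset.sum_congr rfl fun ε _ => lintegral_congr fun x => ?_
    congr 1
    refine iSup_congr fun t => iSup_congr fun _ => ?_
    congr 1
    unfold solution Pool.Agent.N303.LS.wave
    show inv _ x = inv _ x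
    congr 1
    funext ξ
    beta_reduce
    have e1 : Pool.Agent.N303.LS.rnd (𝓕⁻ ψ : 𝓢(E d, ℂ)) A ε ξ = signed ψ A ε ξ := by
      unfold Pool.Agent.N303.LS.rnd signed Pool.Agent.N303.LS.psi block
      rw [hKe]
      rfl
    rw [e1]
    show signed ψ A ε ξ * (Pool.Agent.N303.LS.cs t ξ * 𝓕 (u₀ : E d → ℂ) ξ +
      Pool.Agent.N303.LS.sn t ξ * 𝓕 (u₁ : E d → ℂ) ξ) = _
    ring
  refine ⟨key, ?_⟩
  intro σ hd2 hpd hσ
  have hd1 : (0 : ℝ) < (d : ℝ) - 1 := by
    have : (2 : ℝ) ≤ d := by exact_mod_cast hd2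
    linarith
  have hp0 : 0 < p := by linarith
  have hs : 0 < ((d : ℝ) - 1) / 2 - (d - 1) / p - σ := by
    have e1 : 1 / p ≤ ((d : ℝ) - 1) / 2 - (d - 1) / p := by
      rw [div_le_iff₀ hd1] at hpd
      rw [div_sub_div _ _ (by norm_num) hp0.ne', div_le_div_iff₀ hp0 (by positivity)]
      nlinarith
    linarith
  obtain ⟨C, hC, h⟩ := key _ hs
  refine ⟨C, hC, ?_⟩
  intro ι _ _ A V hA u₀ u₁
  have hs1 : ((d : ℝ) - 1) / 2 - (d - 1) / p - σ - 1 =
      ((d : ℝ) - 1) / 2 - (d - 1) / p - 1 - σ := by ring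
  have h6 := h ι A V hA u₀ u₁
  rw [hs1] at h6
  refine le_trans ?_ h6
  unfold mean maximal
  refine ENNReal.div_le_div_right (Finset.sum_le_sum fun ε _ => lintegral_mono fun x => ?_) _
  refine ENNReal.rpow_le_rpow ?_ hp0.le
  refine iSup₂_le fun t ht => ?_
  exact le_iSup₂ (f := fun (t : ℝ) (_ : t ∈ Set.Icc (0 : ℝ) 2) =>
    ‖solution (signed ψ A ε) u₀ u₁ t x‖ₑ) t ⟨by linarith [ht.1], ht.2⟩

end Pool.Agent.Results.MP_ee74d2_an.RandomMaximal
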