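import Pool.Agent.U562.WV.Supf

set_option autoImplicit false

/-!
# Local smoothing in `ℝ³` at frequency `1/δ` for all data with sparse support

Let `u` be the solution of the wave equation on `ℝ³` with the data `u(0) = φ_δ * f₀`,
`∂ₜu(0) = δ Δ(φ_δ * f₁)`, `φ_δ(x) = δ⁻³ φ(x/δ)`, `f₀, f₁` any integrable functions, `p ≥ p_3 = 3`.

(1) `∫_0^2 ‖u(t)‖_p^p dt` is at most `C δ^{2-p}` times the trilinear energies
`∬_{|y-z|<8} (M_δ f_j)(y)^{p-2} (M_δ f_j)(z)² |y-z|⁻² dz dy`, `M_δ f` = mean of `|f|` over balls of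
radius `δ`.

(2) If `f_j` is supported in `S_j` and the Riesz potential `∫ |y-z|⁻² dy` of the `δ`-neighbourhood of
`S_j` (in the balls of radius `8`) is at most `D`, then `∫_0^2 ‖u(t)‖_p^p dt ≤ C δ^{2-p} D ∑ ‖f_j‖_p^p`.
For `D = O(δ)` this is the conjectured bound `C δ^{3-p}`, with `σ = 1/p` and no loss, for arbitrary
functions on these sets; for `D = O(δ^a)` it is the bound with `σ = a/p`.

(3) In particular, if the `δ`-neighbourhoods of `S_j` have measure at most `A ρ² δ` in the balls of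
radius `ρ`, `δ ≤ ρ ≤ 8` (two-dimensional sets at the scale `δ`: neighbourhoods of surfaces, and all
unions of plates `δ × δ^{1/2} × δ^{1/2}` with at most `A ρ²/δ` of them in the balls of radius
`ρ ≥ δ^{1/2}`, for example one wave packet for each direction), then the bound of Q1 holds up to the
factor `1 + log(1/δ)`, in the full range `p ≥ 3`.

The proof is by the exact energy identity on light cones and the trilinear inequality of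
`LightConeEnergies` (project WV, led by helper562; jobs KIR helper480, KER helper685, SLI helper147,
POL helper2, KEY0 helper186, KEY helper473, MAIN helper770; the bilinear estimate after PCS by
helper128; time averages by helper688).
-/

open MeasureTheory Set Metric
open scoped ENNReal FourierTransform RealInnerProductSpace SchwartzMap

namespace Pool.Agent.Results.MP_ee74d2_an.SparseSupports

/-- `ℝ³` -/
abbrev E3 : Type := EuclideanSpace ℝ (Fin 3)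

/-- The inverse Fourier transform `∫ exp(2πi x·ξ) F(ξ) dξ`. -/
noncomputable def inv (F : E3 → ℂ) (x : E3) : ℂ :=
  ∫ ξ : E3, Complex.exp (((2 * Real.pi * ⟪x, ξ⟫ : ℝ) : ℂ) * Complex.I) * F ξ

/-- The solution of the wave equation with `u(0) = φ_δ * f₀`, `∂ₜu(0) = δ Δ (φ_δ * f₁)`: the inverse
Fourier transform of `cos(2πt|ξ|) φ^(δξ) f₀^(ξ) + sin(2πt|ξ|)/(2π|ξ|) (-4π²δ|ξ|²) φ^(δξ) f₁^(ξ)`. -/
noncomputable def solution (φ : 𝓢(E3, ℂ)) (δ : ℝ) (f₀ f₁ : E3 → ℂ) (t : ℝ) (x : E3) : ℂ :=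
  inv (fun ξ => ((Real.cos (2 * Real.pi * t * ‖ξ‖) : ℝ) : ℂ) *
      (𝓕 (φ : E3 → ℂ) (δ • ξ) * 𝓕 f₀ ξ) +
    ((Real.sin (2 * Real.pi * t * ‖ξ‖) / (2 * Real.pi * ‖ξ‖) : ℝ) : ℂ) *
      (((-(4 * Real.pi ^ 2 * δ * ‖ξ‖ ^ 2) : ℝ) : ℂ) * (𝓕 (φ : E3 → ℂ) (δ • ξ) * 𝓕 f₁ ξ))) x

/-- `δ⁻³ ∫_{|x-y|<δ} |f(x)| dx` -/
noncomputable def mean (δ : ℝ) (f : E3 → ℂ) (y : E3) : ℝ≥0∞ :=
  ENNReal.ofReal ((δ ^ 3)⁻¹) * ∫⁻ x in ball y δ, ‖f x‖ₑ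

/-- The trilinear energy `∬_{|y-z|<8} (M f)(y)^{p-2} (M f)(z)² |y-z|⁻² dz dy`, `M = mean δ`. -/
noncomputable def energy (p δ : ℝ) (f : E3 → ℂ) : ℝ≥0∞ :=
  ∫⁻ y, mean δ f y ^ (p - 2) * ∫⁻ z in ball y 8, mean δ f z ^ 2 / ‖z - y‖ₑ ^ 2

/-- The Riesz potential `∫_{|y-z|<8} |y-z|⁻² dy` of the `δ`-neighbourhood of `S` is at most `D`. -/
def Potential (D : ℝ≥0∞) (δ : ℝ) (S : Set E3) : Prop :=
  ∀ z, ∫⁻ y in ball z 8 ∩ thickening δ S, 1 / ‖y - z‖ₑ ^ 2 ≤ D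

/-- The `δ`-neighbourhood of `S` has measure at most `A ρ² δ` in the balls of radius `ρ`,
`δ ≤ ρ ≤ 8`. -/
def Growth (A δ : ℝ) (S : Set E3) : Prop :=
  ∀ (z : E3) (ρ : ℝ), δ ≤ ρ → ρ ≤ 8 →
    volume (ball z ρ ∩ thickening δ S) ≤ ENNReal.ofReal (A * ρ ^ 2 * δ)

/-- The three estimates, with one constant `C = C(p, φ)`. -/
theorem result (φ : 𝓢(E3, ℂ)) (hφ : tsupport φ ⊆ ball 0 1) (p : ℝ) (hp : 3 ≤ p) :
    ∃ C : ℝ, 0 < C ∧ ∀ (δ : ℝ) (f₀ f₁ : E3 → ℂ), 0 < δ → δ ≤ 1 → Integrable f₀ →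
      Integrable f₁ →
      (∫⁻ t in Icc (0 : ℝ) 2, ∫⁻ x, ‖solution φ δ f₀ f₁ t x‖ₑ ^ p ≤
        ENNReal.ofReal (C * δ ^ (2 - p)) * (energy p δ f₀ + energy p δ f₁)) ∧
      (∀ (D : ℝ≥0∞) (S₀ S₁ : Set E3), Potential D δ S₀ → Potential D δ S₁ →
        (∀ x, x ∉ S₀ → f₀ x = 0) → (∀ x, x ∉ S₁ → f₁ x = 0) →
        ∫⁻ t in Icc (0 : ℝ) 2, ∫⁻ x, ‖solution φ δ f₀ f₁ t x‖ₑ ^ p ≤
          ENNReal.ofReal (C * δ ^ (2 - p)) * D * ((∫⁻ x, ‖f₀ x‖ₑ ^ p) + ∫⁻ x, ‖f₁ x‖ₑ ^ p)) ∧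
      ∀ (A : ℝ) (S₀ S₁ : Set E3), 0 ≤ A → Growth A δ S₀ → Growth A δ S₁ →
        (∀ x, x ∉ S₀ → f₀ x = 0) → (∀ x, x ∉ S₁ → f₁ x = 0) →
        ∫⁻ t in Icc (0 : ℝ) 2, ∫⁻ x, ‖solution φ δ f₀ f₁ t x‖ₑ ^ p ≤
          ENNReal.ofReal (C * (1 + A) * (1 + Real.log (1 / δ)) * δ ^ (3 - p)) *
            ((∫⁻ x, ‖f₀ x‖ₑ ^ p) + ∫⁻ x, ‖f₁ x‖ₑ ^ p) :=
  Pool.Agent.U562.WV.sup_main φ hφ hp

end Pool.Agent.Results.MP_ee74d2_an.SparseSupports
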